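import Mathlib
import Pool.Agent.Lib.MP_0016c7_nt.PC.Defs2
import Pool.Agent.Lib.MP_0016c7_nt.PC.Iface2
import Pool.Agent.Lib.MP_0016c7_nt.Rz2.ErrGd0

set_option autoImplicit false

/-!
Block [H], part Q: the process `ytil (c₀ d) (1/2 - v)` is close to the exact process of the
discriminant in mean square over ALL members of the family (`PerQ`). Statements with proofs.
-/

open Finset MeasureTheory Filter Topology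
open scoped Real ContDiff

namespace Pool.Agent.MP0016c7.PC

open Pool.Agent.MP0016c7.Rz

/-- [Q1] Change of the centre, abstract. PROOF. As in the proof of `avg_shiftS` (`Rz2/AvgS.lean`):
with `s = b d - 1/2 ∈ [0, β]`, `T d (b d - v) - T d (1/2 - v) = ∫_0^s T' d (1/2 - v + u) du`, by
Cauchy-Schwarz its square is at most `β ∫_0^β T' d (1/2 - v + u)^2 du`; sum over `d`, exchange the
finite sum and the integral, `1/2 - v + u ∈ [1/2 - V, 1/2 + β]`: at most `β * β * B` for every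
`v ∈ [0, V]`; integrate over `v`. -/
def S_Q1 : Prop :=
  ∀ (V β B : ℝ) (S : Finset ℕ) (T T' : ℕ → ℝ → ℝ) (b : ℕ → ℝ), 0 ≤ V → 0 ≤ β →
  (∀ d ∈ S, ∀ Y, HasDerivAt (T d) (T' d Y) Y) → (∀ d ∈ S, Continuous (T' d)) →
  (∀ d ∈ S, 1 / 2 ≤ b d ∧ b d ≤ 1 / 2 + β) →
  (∀ Y ∈ Set.Icc (1 / 2 - V) (1 / 2 + β), ∑ d ∈ S, T' d Y ^ 2 ≤ B) →
  ∑ d ∈ S, ∫ v in (0 : ℝ)..V, (T d (1 / 2 - v) - T d (b d - v)) ^ 2 ≤ V * (β ^ 2 * B)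

/-- [Q2] Superposition of shifts, abstract. PROOF. Put `D j d = T d (Y - j η) - T d Y`. CLAIM:
`∑_d (D j d)^2 ≤ 16 (j η)^2 B`. If `Y - j η ≥ -1`: `D j d = -∫_{Y - jη}^{Y} T' d`, so by
Cauchy-Schwarz `(D j d)^2 ≤ j η ∫_{Y-jη}^{Y} (T' d)^2`, and summing over `d`: `≤ (j η)^2 B`.
If `Y - j η < -1`: then `j η ≥ 1/2` (as `Y ≥ -1/2`), `(D j d)^2 ≤ 2 (T d (Y - jη))^2 +
2 (T d Y)^2`, so the sum is at most `2 B + 2 B = 4 B ≤ 16 (j η)^2 B`.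
Then `(1 - e) ∑_j e^j = 1`, so `U d - T d Y = (1 - e) ∑_j e^j D j d` (`∑_j e^j` converges,
`|e| ≤ q < 1`), and by Cauchy-Schwarz `(U d - T d Y)^2 ≤ 4 (∑_j q^j) (∑_j q^j (D j d)^2)`
(the series `∑_j q^j (D j d)^2` converges because `D j d` is bounded: `|T d (Y')| ≤ Mb` for
`Y' ≤ Y₁`); sum over `d`, exchange (finite sum, nonnegative terms):
`≤ 4 / (1 - q) * ∑_j q^j 16 j^2 η^2 B = C η^2 B` with `C = 64 / (1 - q) ∑_j q^j j^2`. -/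
def S_Q2 : Prop :=
  ∀ q : ℝ, 0 < q → q < 1 → ∃ C : ℝ, 0 ≤ C ∧ ∀ (e η B Mb Y₁ : ℝ) (S : Finset ℕ)
  (T T' : ℕ → ℝ → ℝ), |e| ≤ q → 0 < η → 0 ≤ B →
  (∀ d ∈ S, ∀ Y, HasDerivAt (T d) (T' d Y) Y) → (∀ d ∈ S, Continuous (T' d)) →
  (∀ d ∈ S, ∀ Y ≤ Y₁, |T d Y| ≤ Mb) →
  (∀ Y ≤ Y₁, ∑ d ∈ S, T d Y ^ 2 ≤ B) →
  (∀ Y ∈ Set.Icc (-1) Y₁, ∑ d ∈ S, T' d Y ^ 2 ≤ B) →
  ∀ Y ∈ Set.Icc (-(1 / 2)) Y₁,
    ∑ d ∈ S, ((1 - e) * ∑' j : ℕ, e ^ j * T d (Y - j * η) - T d Y) ^ 2 ≤ C * η ^ 2 * B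

/-- [Q3] The second moment of `ytil (c₀ d)` over the family. PROOF. For `Y ∈ [-1, 1/2 + δ]` as in
`avgS_sum_bound` (`Rz2/AvgS.lean`) and `fa4_sum_bound` (`Rz/Fa4.lean`): a bump function `F ≥ 0`
with `F ≥ 1` on `[1,2]` (`exists_F`), `r = 1`, and `second_moment` (family `Odd`, `ytil d`),
resp. `second_momentG` (family `Rf m c σ`, `ytil (2 d)`), the limit `CC ρ ρ h Y Y` is bounded
(`avgS_CC_le`). For `Y ≤ -1` the process is at most `X^(-30)` (`ytil_small` in `Rz2/YS1.lean`) and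
`S` has at most `X` elements. The last claim: `ytil_trunc` (`|ytil| ≤ X^20` on `[-1, 1/2 + δ]`) and
`ytil_small`. -/
def S_Q3 : Prop :=
  ∀ (θ δ : ℝ), 0 < δ → δ ≤ 1 / 4 → 0 < θ → θ + 3 * δ < 1 / 2 → ∀ σ : ℤ, (σ = 1 ∨ σ = -1) →
  ∀ a₀ : ℝ, (a₀ = 0 ∨ a₀ = 1) → ∀ (ρ h : ℝ → ℝ), Bump ρ (-(δ / 2)) (δ / 2) → Bump h 0 θ →
  (ErrS θ δ → ∃ B X₀ : ℝ, 0 ≤ B ∧ ∀ X : ℝ, X₀ ≤ X → ∀ S : Finset ℕ,
    (∀ d ∈ S, Odd d ∧ X < d ∧ (d : ℝ) ≤ 2 * X) → ∀ Y ≤ 1 / 2 + δ,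
    ∑ d ∈ S, ytil a₀ σ ρ h X d Y ^ 2 ≤ B * X) ∧
  (ErrG θ δ → ∀ (m c ε : ℤ) (κ : ℕ), Fam m c ε κ → ∃ B X₀ : ℝ, 0 ≤ B ∧ ∀ X : ℝ, X₀ ≤ X →
    ∀ S : Finset ℕ, (∀ d ∈ S, Rf m c σ d ∧ X < d ∧ (d : ℝ) ≤ 2 * X) → ∀ Y ≤ 1 / 2 + δ,
    ∑ d ∈ S, ytil a₀ σ ρ h X (2 * d) Y ^ 2 ≤ B * X) ∧
  (∃ X₀ : ℝ, ∀ X : ℝ, X₀ ≤ X → ∀ d : ℕ, ∀ Y ≤ 1 / 2 + δ, |ytil a₀ σ ρ h X d Y| ≤ X ^ 20)

/-- [Q4] The family `8 σ d`. PROOF (from `S_Q1`, `S_Q3`). `T d = ytil d`, `T' d = ytil[deriv ρ] d`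
(`hasDerivAt_ytil` in `Rz/Ker4.lean`, continuous by the same theorem for `deriv ρ`, `deriv ρ` is a
`Bump` as in `avgS_bump_deriv`), `b d = log (8 d) / (2 log X) ∈ [1/2, 1/2 + β]`,
`β = log 16 / (2 log X) ≤ δ` for `X < d ≤ 2 X`, `V = 1/2 + δ`; the heights of `T'` are in
`[-δ, 1/2 + δ]`; by `S_Q3` for `deriv ρ` the hypothesis of `S_Q1` holds with `B * X`. -/
def S_Q4 : Prop :=
  ∀ (θ δ : ℝ), 0 < δ → δ ≤ 1 / 4 → 0 < θ → θ + 3 * δ < 1 / 2 → ErrS θ δ →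
  ∀ σ : ℤ, (σ = 1 ∨ σ = -1) → ∀ a₀ : ℝ, (a₀ = 0 ∨ a₀ = 1) → ∀ (ρ h : ℝ → ℝ),
  Bump ρ (-(δ / 2)) (δ / 2) → Bump h 0 θ →
  PerQ Odd δ (fun X d Y => ytil a₀ σ ρ h X (1 * d) Y)
    (fun X d v => ytil a₀ σ ρ h X d (Real.log (8 * d) / (2 * Real.log X) - v))

/-- [Q5] The families `4 σ d`, `σ d`. PROOF (from `S_Q1`, `S_Q2`, `S_Q3`). Two steps,
`(x + y)^2 ≤ 2 x^2 + 2 y^2`. STEP 1 `ytil (2 d) (1/2 - v)` against `yS d (1/2 - v)`: this is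
`S_Q2` with `e = ε / √2`, `q = 1 / √2`, `η = log 2 / log X`, `T d = ytil (2 d)`,
`T' d = ytil[deriv ρ] (2 d)`, `Y₁ = 1/2 + δ`, `Mb = X^20`, and `B` the maximum of the two bounds
`B * X` of `S_Q3` (for `ρ` and `deriv ρ`): for every `Y ∈ [-1/2, 1/2 + δ]` the sum of
`(yS d Y - ytil (2 d) Y)^2` is at most `C (log 2 / log X)^2 B X`; integrate over
`v ∈ [0, 1/2 + δ]` (`yS` is continuous, `hasDerivAt_yS`). Note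
`ε^j / √2^j = (ε / √2)^j`. STEP 2 `yS d (1/2 - v)` against `yS d (b_d - v)`,
`b_d = log (κ d) / (2 log X)`: `S_Q1` with `T d = yS d`, `T' d = yS[deriv ρ] d`
(`hasDerivAt_yS`); the second moment of `yS[deriv ρ]` at `Y ∈ [-1/2, 1/2 + δ]` is at most twice
that of `ytil[deriv ρ] (2 d)` plus twice the bound of STEP 1 applied to `deriv ρ` (with
`deriv (deriv ρ)`), so `O(X)`. `1/2 ≤ b_d ≤ 1/2 + log 16 / (2 log X)` for `κ = 1, 4`,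
`X < d ≤ 2 X`. (Or use `avgS_sum_bound`, private in `Rz2/AvgS.lean`, by copying it.) -/
def S_Q5 : Prop :=
  ∀ (θ δ : ℝ), 0 < δ → δ ≤ 1 / 4 → 0 < θ → θ + 3 * δ < 1 / 2 → ErrG θ δ →
  ∀ σ : ℤ, (σ = 1 ∨ σ = -1) → ∀ (m c ε : ℤ) (κ : ℕ), Fam m c ε κ →
  ∀ a₀ : ℝ, (a₀ = 0 ∨ a₀ = 1) → ∀ (ρ h : ℝ → ℝ),
  Bump ρ (-(δ / 2)) (δ / 2) → Bump h 0 θ →
  PerQ (Rf m c σ) δ (fun X d Y => ytil a₀ σ ρ h X (2 * d) Y)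
    (fun X d v => yS a₀ ε σ ρ h X d (Real.log (κ * d) / (2 * Real.log X) - v))

end Pool.Agent.MP0016c7.PC
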