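import Mathlib
import Pool.Agent.Lib.MP_0016c7_nt.PC.H.StmQ
import Pool.Agent.Lib.MP_0016c7_nt.Rz2.QlsH

set_option autoImplicit false

/-!
Block [H], the families: assembly of `JF_fam0`, `JF_famW` from `BadH` (block [B]), `PerQ` (part Q)
and `TwP` (block [P]).
-/

open Finset MeasureTheory Filter Topology
open scoped Real ContDiff

namespace Pool.Agent.MP0016c7.PC

open Pool.Agent.MP0016c7.Rz

/-- [B] The linear relation for all families, for an abstract profile `H`. -/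
def S_BH : Prop :=
  ∀ σ : ℤ, (σ = 1 ∨ σ = -1) → ∀ δ : ℝ, 0 < δ → δ ≤ 1 / 100 →
  ∀ ρ : ℝ → ℝ, Bump ρ (-(δ / 2)) (δ / 2) → (∀ y, 0 ≤ ρ y) → (∀ y, ρ (-y) = ρ y) →
    (∫ y, ρ y) = 1 → ∀ (θ₀ : ℝ) (H h : ℝ → ℝ), 0 < θ₀ → θ₀ + 6 * δ < 1 / 2 → (∀ x, 0 ≤ H x) →
    Antitone H → Continuous H → (∀ x, θ₀ ≤ x → H x = 0) → Bump h (2 * δ) (θ₀ + 3 * δ) →
    (∀ t, 0 ≤ h t) → (∀ t, H (t - 2 * δ) ≤ HH h t) →
    BadH 0 Odd (NoZero σ) H θ₀ δ (fun X d v => ytil (if σ = 1 then 0 else 1) σ ρ h X d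
      (Real.log (8 * d) / (2 * Real.log X) - v)) ∧
    (∀ A A' : ℝ, 0 < A' → A' < A → BadH A' Odd (NoZW A σ) H θ₀ δ
      (fun X d v => ytil (if σ = 1 then 0 else 1) σ ρ h X d
        (Real.log (8 * d) / (2 * Real.log X) - v))) ∧
    (∀ (m c ε : ℤ) (κ : ℕ), Fam m c ε κ →
      BadH 0 (Rf m c σ) (NoZeroG κ) H θ₀ δ (fun X d v => yS (if σ = 1 then 0 else 1) ε σ ρ h X d
        (Real.log (κ * d) / (2 * Real.log X) - v)) ∧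
      (∀ A A' : ℝ, 0 < A' → A' < A → BadH A' (Rf m c σ) (NoZWG A κ) H θ₀ δ
        (fun X d v => yS (if σ = 1 then 0 else 1) ε σ ρ h X d
          (Real.log (κ * d) / (2 * Real.log X) - v))))

/-- [R1] The primes of the families. PROOF. `Odd p ↔ p % 8 ∈ {1,3,5,7}`. For `Rf m c σ`: for a
prime `p`, `σ p` is not a square, so `Rf m c σ p ↔ (σ p) % m = c`; `m = 4, c = 3`: `S = {3, 7}` for
`σ = 1` and `{1, 5}` for `σ = -1`; `m = 8, c = 1`: `{1}`, `{7}`; `m = 8, c = 5`: `{5}`, `{3}`. -/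
def S_R1 : Prop :=
  (∃ S : Finset ℕ, PCl Odd (1 / 2) S) ∧
  ∀ σ : ℤ, (σ = 1 ∨ σ = -1) → ∀ (m c ε : ℤ) (κ : ℕ), Fam m c ε κ →
    (∃ S : Finset ℕ, PCl (Rf m c σ) (1 / m) S) ∧ ∀ d, Rf m c σ d → Odd d

end Pool.Agent.MP0016c7.PC
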