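import Mathlib
import Pool.Agent.Lib.MP_0016c7_nt.PC.H.StmF
import Pool.Agent.Lib.MP_0016c7_nt.PC.BadH

set_option autoImplicit false

/-!
Block [B]: the linear relation for all families.
-/

open Finset MeasureTheory Filter Topology
open scoped Real ContDiff

namespace Pool.Agent.MP0016c7.PC

open Pool.Agent.MP0016c7.Rz

theorem p_BH : S_BH := by
  intro σ hσ δ hδ hδ' ρ hρ hρn hρe hρ1 θ₀ H h hθ₀ hlen hH0 hHa _ hHz hh hhn hHle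
  refine ⟨badH_A0 hθ₀ hδ hδ' hlen hρ hρn hρe hρ1 hh hhn hH0 hHa hHz hHle σ hσ,
    fun A A' hA' hAA => badH_A hθ₀ hδ hδ' hlen hρ hρn hρe hρ1 hh hhn hH0 hHa hHz hHle σ hσ
      (Or.inr ⟨hA', hAA⟩),
    fun m c ε κ hf => ⟨badH_fam0 hθ₀ hδ hδ' hlen hρ hρn hρe hρ1 hh hhn hH0 hHa hHz hHle σ hσ hf,
      fun A A' hA' hAA => badH_fam hθ₀ hδ hδ' hlen hρ hρn hρe hρ1 hh hhn hH0 hHa hHz hHle σ hσ hf
        (Or.inr ⟨hA', hAA⟩)⟩⟩

end Pool.Agent.MP0016c7.PC
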