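import Mathlib
import Pool.Agent.Lib.MP_0016c7_nt.PC.H.StmF
import Pool.Agent.Lib.MP_0016c7_nt.Rz2.ErrGd
import Pool.Agent.Lib.MP_0016c7_nt.Rz2.ErrG2
import Pool.Agent.Lib.MP_0016c7_nt.Rz2.YS1
import Pool.Agent.Lib.MP_0016c7_nt.Rz.Ker4

set_option autoImplicit false

/-!
Block [H]: assembly of the families.
-/

open Finset MeasureTheory Filter Topology
open scoped Real ContDiff

namespace Pool.Agent.MP0016c7.PC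

open Pool.Agent.MP0016c7.Rz

private lemma ff_eps {m c ε : ℤ} {κ : ℕ} (hf : Fam m c ε κ) : ε = 0 ∨ ε = 1 ∨ ε = -1 := by
  rcases hf with ⟨_, _, h, _⟩ | ⟨_, _, h, _⟩ | ⟨_, _, h, _⟩
  · exact Or.inl h
  · exact Or.inr (Or.inl h)
  · exact Or.inr (Or.inr h)

private lemma ff_m {m c ε : ℤ} {κ : ℕ} (hf : Fam m c ε κ) : (0 : ℝ) < m := by
  rcases hf with ⟨h, _⟩ | ⟨h, _⟩ | ⟨h, _⟩ <;> rw [h] <;> norm_num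

private lemma ff_c (σ : ℤ) : (if σ = 1 then (0 : ℝ) else 1) = 0 ∨ (if σ = 1 then (0 : ℝ) else 1) = 1 := by
  split_ifs
  · exact Or.inl rfl
  · exact Or.inr rfl

private lemma ff_bump {h : ℝ → ℝ} {δ θ : ℝ} (hδ : 0 < δ) (hh : Bump h (2 * δ) θ) : Bump h 0 θ :=
  ⟨hh.smooth, fun t ht => ⟨by linarith [(hh.supp t ht).1], (hh.supp t ht).2⟩⟩

private theorem ff_8 [QlsHyp] (hQ : S_Q4) {A : ℝ} {NZ : ℕ → Prop} {σ : ℤ} (hσ : σ = 1 ∨ σ = -1)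
    {δ : ℝ} (hδ : 0 < δ) (hδ' : δ ≤ 1 / 100) (hT : TwP Odd (1 / 2) 1 σ)
    (hP : ∃ S : Finset ℕ, PCl Odd (1 / 2) S)
    (hB : ∀ ρ : ℝ → ℝ, Bump ρ (-(δ / 2)) (δ / 2) → (∀ y, 0 ≤ ρ y) → (∀ y, ρ (-y) = ρ y) →
      (∫ y, ρ y) = 1 → ∀ (θ₀ : ℝ) (H h : ℝ → ℝ), 0 < θ₀ → θ₀ + 6 * δ < 1 / 2 → (∀ x, 0 ≤ H x) →
      Antitone H → Continuous H → (∀ x, θ₀ ≤ x → H x = 0) → Bump h (2 * δ) (θ₀ + 3 * δ) →
      (∀ t, 0 ≤ h t) → (∀ t, H (t - 2 * δ) ≤ HH h t) →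
      BadH A Odd NZ H θ₀ δ (fun X d v => ytil (if σ = 1 then 0 else 1) σ ρ h X d
        (Real.log (8 * d) / (2 * Real.log X) - v))) :
    FamP A Odd NZ (1 / 2) 1 σ δ := by
  refine ⟨fun d hd => hd, by norm_num, hσ, Or.inl rfl, hT, hP, ?_⟩
  intro ρ hρ hρn hρe hρ1 θ₀ H h hθ₀ hlen hH0 hHa hHc hHz hh hhn hHle
  have hh0 : Bump h 0 (θ₀ + 3 * δ) := ff_bump hδ hh
  have hcont : ∀ X : ℝ, 1 < X → ∀ d : ℕ, Continuous (fun Y : ℝ =>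
      ytil (if σ = 1 then 0 else 1) σ ρ h X d Y) := by
    intro X hX d
    rw [continuous_iff_continuousAt]
    intro Y
    exact (hasDerivAt_ytil hδ hρ hh0 _ (ff_c σ) σ X hX d Y).continuousAt
  refine ⟨fun X d v => ytil (if σ = 1 then 0 else 1) σ ρ h X d
    (Real.log (8 * d) / (2 * Real.log X) - v), fun X hX d => (hcont X hX d).comp (by fun_prop), ?_,
    hB ρ hρ hρn hρe hρ1 θ₀ H h hθ₀ hlen hH0 hHa hHc hHz hh hhn hHle⟩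
  exact hQ (θ₀ + 3 * δ) δ hδ (by linarith) (by linarith) (by linarith)
    (errS_of_lt2 (θ₀ + 3 * δ) δ (by linarith) hδ (by linarith)) σ hσ _ (ff_c σ) ρ h hρ hh0

private theorem ff_G [QlsHyp] (hQ : S_Q5) {A : ℝ} {NZ : ℕ → Prop} {σ : ℤ} (hσ : σ = 1 ∨ σ = -1)
    {m c ε : ℤ} {κ : ℕ} (hf : Fam m c ε κ)
    {δ : ℝ} (hδ : 0 < δ) (hδ' : δ ≤ 1 / 100) (hT : TwP (Rf m c σ) (1 / m) 2 σ)
    (hP : ∃ S : Finset ℕ, PCl (Rf m c σ) (1 / m) S) (hodd : ∀ d, Rf m c σ d → Odd d)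
    (hB : ∀ ρ : ℝ → ℝ, Bump ρ (-(δ / 2)) (δ / 2) → (∀ y, 0 ≤ ρ y) → (∀ y, ρ (-y) = ρ y) →
      (∫ y, ρ y) = 1 → ∀ (θ₀ : ℝ) (H h : ℝ → ℝ), 0 < θ₀ → θ₀ + 6 * δ < 1 / 2 → (∀ x, 0 ≤ H x) →
      Antitone H → Continuous H → (∀ x, θ₀ ≤ x → H x = 0) → Bump h (2 * δ) (θ₀ + 3 * δ) →
      (∀ t, 0 ≤ h t) → (∀ t, H (t - 2 * δ) ≤ HH h t) →
      BadH A (Rf m c σ) NZ H θ₀ δ (fun X d v => yS (if σ = 1 then 0 else 1) ε σ ρ h X d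
        (Real.log (κ * d) / (2 * Real.log X) - v))) :
    FamP A (Rf m c σ) NZ (1 / m) 2 σ δ := by
  have hm := ff_m hf
  refine ⟨hodd, by positivity, hσ, Or.inr rfl, hT, hP, ?_⟩
  intro ρ hρ hρn hρe hρ1 θ₀ H h hθ₀ hlen hH0 hHa hHc hHz hh hhn hHle
  have hh0 : Bump h 0 (θ₀ + 3 * δ) := ff_bump hδ hh
  have hcont : ∀ X : ℝ, 1 < X → ∀ d : ℕ, Continuous (fun Y : ℝ =>
      yS (if σ = 1 then 0 else 1) ε σ ρ h X d Y) := by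
    intro X hX d
    rw [continuous_iff_continuousAt]
    intro Y
    exact (hasDerivAt_yS hδ hρ hh0 _ (ff_c σ) ε σ (ff_eps hf) X hX d Y).continuousAt
  refine ⟨fun X d v => yS (if σ = 1 then 0 else 1) ε σ ρ h X d
    (Real.log (κ * d) / (2 * Real.log X) - v), fun X hX d => (hcont X hX d).comp (by fun_prop), ?_,
    hB ρ hρ hρn hρe hρ1 θ₀ H h hθ₀ hlen hH0 hHa hHc hHz hh hhn hHle⟩
  exact hQ (θ₀ + 3 * δ) δ hδ (by linarith) (by linarith) (by linarith)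
    (errG_of_lt (θ₀ + 3 * δ) δ (by linarith) hδ (by linarith)) σ hσ m c ε κ hf _ (ff_c σ) ρ h hρ hh0

theorem p_fam0 [QlsHyp] (hQ4 : S_Q4) (hQ5 : S_Q5) (hB : S_BH) (hT : JF_tw) (hR : S_R1) :
    JF_fam0 := by
  intro σ hσ δ hδ hδ'
  refine ⟨?_, fun m c ε κ hf => ?_⟩
  · exact ff_8 hQ4 hσ hδ hδ' (hT σ hσ).1 hR.1
      fun ρ hρ hρn hρe hρ1 θ₀ H h hθ₀ hlen hH0 hHa hHc hHz hh hhn hHle =>
        (hB σ hσ δ hδ hδ' ρ hρ hρn hρe hρ1 θ₀ H h hθ₀ hlen hH0 hHa hHc hHz hh hhn hHle).1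
  · exact ff_G hQ5 hσ hf hδ hδ' ((hT σ hσ).2 m c ε κ hf) (hR.2 σ hσ m c ε κ hf).1
      (hR.2 σ hσ m c ε κ hf).2
      fun ρ hρ hρn hρe hρ1 θ₀ H h hθ₀ hlen hH0 hHa hHc hHz hh hhn hHle =>
        ((hB σ hσ δ hδ hδ' ρ hρ hρn hρe hρ1 θ₀ H h hθ₀ hlen hH0 hHa hHc hHz hh hhn hHle).2.2
          m c ε κ hf).1

theorem p_famW [QlsHyp] (hQ4 : S_Q4) (hQ5 : S_Q5) (hB : S_BH) (hT : JF_tw) (hR : S_R1) :
    JF_famW := by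
  intro σ hσ δ hδ hδ' A A' hA' hAA
  refine ⟨?_, fun m c ε κ hf => ?_⟩
  · exact ff_8 hQ4 hσ hδ hδ' (hT σ hσ).1 hR.1
      fun ρ hρ hρn hρe hρ1 θ₀ H h hθ₀ hlen hH0 hHa hHc hHz hh hhn hHle =>
        (hB σ hσ δ hδ hδ' ρ hρ hρn hρe hρ1 θ₀ H h hθ₀ hlen hH0 hHa hHc hHz hh hhn hHle).2.1
          A A' hA' hAA
  · exact ff_G hQ5 hσ hf hδ hδ' ((hT σ hσ).2 m c ε κ hf) (hR.2 σ hσ m c ε κ hf).1
      (hR.2 σ hσ m c ε κ hf).2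
      fun ρ hρ hρn hρe hρ1 θ₀ H h hθ₀ hlen hH0 hHa hHc hHz hh hhn hHle =>
        ((hB σ hσ δ hδ hδ' ρ hρ hρn hρe hρ1 θ₀ H h hθ₀ hlen hH0 hHa hHc hHz hh hhn hHle).2.2
          m c ε κ hf).2 A A' hA' hAA

end Pool.Agent.MP0016c7.PC
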