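import Mathlib
import Pool.Agent.Lib.MP_0016c7_nt.PC.H.StmQ

set_option autoImplicit false

/-!
Block [H], part Q, piece Q2: superposition of shifts, abstract.
-/

open Finset MeasureTheory Filter Topology
open scoped Real ContDiff

namespace Pool.Agent.MP0016c7.PC

open Pool.Agent.MP0016c7.Rz

private lemma Q2_cs {f : ℝ → ℝ} (hf : Continuous f) {s : ℝ} (hs : 0 ≤ s) :
    (∫ u in (0 : ℝ)..s, f u) ^ 2 ≤ s * ∫ u in (0 : ℝ)..s, f u ^ 2 := by
  have hf2 : Continuous (fun u => f u ^ 2) := hf.pow 2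
  set J := ∫ u in (0 : ℝ)..s, f u with hJ
  have h0 : 0 ≤ ∫ u in (0 : ℝ)..s, (s * f u - J) ^ 2 :=
    intervalIntegral.integral_nonneg hs (fun u _ => sq_nonneg _)
  have h1 : ∫ u in (0 : ℝ)..s, (s * f u - J) ^ 2 =
      s ^ 2 * (∫ u in (0 : ℝ)..s, f u ^ 2) - 2 * s * J * J + s * J ^ 2 := by
    have e : ∀ u, (s * f u - J) ^ 2 = s ^ 2 * f u ^ 2 - 2 * s * J * f u + J ^ 2 := fun u => by ring
    simp_rw [e]
    have i1 : IntervalIntegrable (fun u => s ^ 2 * f u ^ 2) volume 0 s :=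
      (continuous_const.mul hf2).intervalIntegrable _ _
    have i2 : IntervalIntegrable (fun u => 2 * s * J * f u) volume 0 s :=
      (continuous_const.mul hf).intervalIntegrable _ _
    rw [intervalIntegral.integral_add (i1.sub i2) intervalIntegrable_const,
      intervalIntegral.integral_sub i1 i2,
      intervalIntegral.integral_const_mul, intervalIntegral.integral_const_mul,
      intervalIntegral.integral_const, ← hJ]
    simp only [smul_eq_mul]
    ring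
  rw [h1] at h0
  rcases hs.eq_or_lt with h | h
  · have : J = 0 := by rw [hJ, ← h]; simp
    rw [this, ← h]; simp
  · have h2 : 0 ≤ s * (s * (∫ u in (0 : ℝ)..s, f u ^ 2) - J ^ 2) := by nlinarith only [h0]
    have := nonneg_of_mul_nonneg_right h2 h
    linarith

/-- the differences over a step `s` -/
private lemma Q2_diff {B Y₁ : ℝ} {S : Finset ℕ} {T T' : ℕ → ℝ → ℝ} (hB : 0 ≤ B)
    (hd : ∀ d ∈ S, ∀ Y, HasDerivAt (T d) (T' d Y) Y) (hc : ∀ d ∈ S, Continuous (T' d))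
    (h1 : ∀ Y ≤ Y₁, ∑ d ∈ S, T d Y ^ 2 ≤ B)
    (h2 : ∀ Y ∈ Set.Icc (-1) Y₁, ∑ d ∈ S, T' d Y ^ 2 ≤ B) {Y : ℝ}
    (hY : Y ∈ Set.Icc (-(1 / 2)) Y₁) {s : ℝ} (hs : 0 ≤ s) :
    ∑ d ∈ S, (T d (Y - s) - T d Y) ^ 2 ≤ 16 * s ^ 2 * B := by
  rcases le_or_gt (-1) (Y - s) with h | h
  · have hF : ∀ d ∈ S, (T d (Y - s) - T d Y) ^ 2 ≤
        s * ∫ u in (0 : ℝ)..s, T' d (Y - s + u) ^ 2 := by
      intro d hdS
      have hcc : Continuous (fun u => T' d (Y - s + u)) :=
        (hc d hdS).comp (continuous_const.add continuous_id)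
      have h3 : ∀ u ∈ Set.uIcc (0 : ℝ) s,
          HasDerivAt (fun u => T d (Y - s + u)) (T' d (Y - s + u)) u := fun u _ =>
        (hd d hdS (Y - s + u)).comp_const_add (Y - s) u
      have h4 : ∫ u in (0 : ℝ)..s, T' d (Y - s + u) = T d Y - T d (Y - s) := by
        rw [intervalIntegral.integral_eq_sub_of_hasDerivAt h3 (hcc.intervalIntegrable _ _)]
        congr 2
        · ring
        · ring
      have h5 := Q2_cs hcc hs
      rw [h4] at h5
      calc (T d (Y - s) - T d Y) ^ 2 = (T d Y - T d (Y - s)) ^ 2 := by ring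
        _ ≤ _ := h5
    have hkc : ∀ d ∈ S, Continuous (fun u => T' d (Y - s + u) ^ 2) := fun d hdS =>
      ((hc d hdS).comp (continuous_const.add continuous_id)).pow 2
    refine (sum_le_sum hF).trans ?_
    rw [← mul_sum, ← intervalIntegral.integral_finsetSum (fun d hdS =>
      (hkc d hdS).intervalIntegrable 0 s)]
    have h4 : ∫ u in (0 : ℝ)..s, ∑ d ∈ S, T' d (Y - s + u) ^ 2 ≤ ∫ _u in (0 : ℝ)..s, B := by
      apply intervalIntegral.integral_mono_on hs
      · exact Continuous.intervalIntegrable (continuous_finsetSum _ hkc) _ _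
      · exact intervalIntegrable_const
      · intro u hu
        exact h2 _ ⟨by linarith [hu.1], by linarith [hu.2, hY.2]⟩
    rw [intervalIntegral.integral_const, sub_zero, smul_eq_mul] at h4
    have h5 : 0 ≤ s ^ 2 * B := by positivity
    calc s * ∫ u in (0 : ℝ)..s, ∑ d ∈ S, T' d (Y - s + u) ^ 2 ≤ s * (s * B) :=
          mul_le_mul_of_nonneg_left h4 hs
      _ ≤ 16 * s ^ 2 * B := by nlinarith only [h5]
  · have h3 : ∑ d ∈ S, (T d (Y - s) - T d Y) ^ 2 ≤
        ∑ d ∈ S, (2 * T d (Y - s) ^ 2 + 2 * T d Y ^ 2) := by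
      refine sum_le_sum fun d _ => ?_
      nlinarith only [sq_nonneg (T d (Y - s) + T d Y)]
    have h4 := h1 (Y - s) (by linarith [hY.2])
    have h5 := h1 Y hY.2
    rw [sum_add_distrib, ← mul_sum, ← mul_sum] at h3
    have h6 : 1 / 2 ≤ s := by linarith [hY.1]
    have h7 : 1 / 4 ≤ s ^ 2 := by nlinarith only [h6]
    have h8 : 4 * B ≤ 16 * s ^ 2 * B := by nlinarith only [h7, hB]
    linarith

theorem p_Q2 : S_Q2 := by
  intro q hq0 hq1
  have hsum : Summable (fun j : ℕ => (j : ℝ) ^ 2 * q ^ j) :=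
    summable_pow_mul_geometric_of_norm_lt_one 2
      (by rw [Real.norm_eq_abs, abs_of_pos hq0]; exact hq1)
  set K : ℝ := ∑' j : ℕ, (j : ℝ) ^ 2 * q ^ j with hK
  have hK0 : 0 ≤ K := tsum_nonneg fun j => by positivity
  have hq2 : 0 < 1 - q := by linarith
  refine ⟨4 * ((1 - q)⁻¹ * (16 * K)), by positivity, ?_⟩
  intro e η B Mb Y₁ S T T' he hη hB hd hc hMb h1 h2 Y hY
  have hgeo : Summable (fun j : ℕ => q ^ j) := summable_geometric_of_lt_one hq0.le hq1
  have hgeoN : ∀ N : ℕ, ∑ j ∈ range N, q ^ j ≤ (1 - q)⁻¹ := fun N => by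
    rw [← tsum_geometric_of_lt_one hq0.le hq1]
    exact hgeo.sum_le_tsum _ (fun j _ => by positivity)
  have he1 : e < 1 := lt_of_le_of_lt ((le_abs_self e).trans he) hq1
  have he2 : -1 < e := by
    have := neg_abs_le e
    linarith
  have hene : 1 - e ≠ 0 := by linarith
  have hfin : ∀ N : ℕ, ∑ d ∈ S, (∑ j ∈ range N, e ^ j * (T d (Y - j * η) - T d Y)) ^ 2 ≤
      (1 - q)⁻¹ * (16 * K) * η ^ 2 * B := by
    intro N
    have a1 : ∀ d ∈ S, (∑ j ∈ range N, e ^ j * (T d (Y - j * η) - T d Y)) ^ 2 ≤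
        (1 - q)⁻¹ * ∑ j ∈ range N, q ^ j * (T d (Y - j * η) - T d Y) ^ 2 := by
      intro d _
      have b1 := sum_sq_le_sum_mul_sum_of_sq_le_mul (range N)
        (r := fun j : ℕ => e ^ j * (T d (Y - j * η) - T d Y)) (f := fun j : ℕ => q ^ j)
        (g := fun j : ℕ => q ^ j * (T d (Y - j * η) - T d Y) ^ 2)
        (fun j _ => by positivity) (fun j _ => by positivity) (fun j _ => by
          have c1 : (e ^ j) ^ 2 ≤ (q ^ j) ^ 2 := by
            rw [← sq_abs (e ^ j), abs_pow]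
            exact pow_le_pow_left₀ (by positivity) (pow_le_pow_left₀ (abs_nonneg e) he j) 2
          calc (e ^ j * (T d (Y - j * η) - T d Y)) ^ 2
              = (e ^ j) ^ 2 * (T d (Y - j * η) - T d Y) ^ 2 := by ring
            _ ≤ (q ^ j) ^ 2 * (T d (Y - j * η) - T d Y) ^ 2 :=
                mul_le_mul_of_nonneg_right c1 (sq_nonneg _)
            _ = q ^ j * (q ^ j * (T d (Y - j * η) - T d Y) ^ 2) := by ring)
      exact b1.trans (mul_le_mul_of_nonneg_right (hgeoN N)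
        (sum_nonneg fun j _ => by positivity))
    refine (sum_le_sum a1).trans ?_
    rw [← mul_sum, sum_comm]
    have a2 : ∑ j ∈ range N, ∑ d ∈ S, q ^ j * (T d (Y - j * η) - T d Y) ^ 2 ≤
        ∑ j ∈ range N, (16 * η ^ 2 * B) * ((j : ℝ) ^ 2 * q ^ j) := by
      refine sum_le_sum fun j _ => ?_
      rw [← mul_sum]
      have b2 := Q2_diff hB hd hc h1 h2 hY (s := (j : ℝ) * η) (by positivity)
      calc q ^ j * ∑ d ∈ S, (T d (Y - j * η) - T d Y) ^ 2
          ≤ q ^ j * (16 * ((j : ℝ) * η) ^ 2 * B) :=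
            mul_le_mul_of_nonneg_left b2 (by positivity)
        _ = (16 * η ^ 2 * B) * ((j : ℝ) ^ 2 * q ^ j) := by ring
    have a3 : ∑ j ∈ range N, (16 * η ^ 2 * B) * ((j : ℝ) ^ 2 * q ^ j) ≤ 16 * η ^ 2 * B * K := by
      rw [← mul_sum]
      exact mul_le_mul_of_nonneg_left (hsum.sum_le_tsum _ (fun j _ => by positivity))
        (by positivity)
    calc (1 - q)⁻¹ * ∑ j ∈ range N, ∑ d ∈ S, q ^ j * (T d (Y - j * η) - T d Y) ^ 2
        ≤ (1 - q)⁻¹ * (16 * η ^ 2 * B * K) :=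
          mul_le_mul_of_nonneg_left (a2.trans a3) (by positivity)
      _ = (1 - q)⁻¹ * (16 * K) * η ^ 2 * B := by ring
  have hs2 : ∀ d ∈ S, HasSum (fun j : ℕ => e ^ j * (T d (Y - j * η) - T d Y))
      ((∑' j : ℕ, e ^ j * T d (Y - j * η)) - (1 - e)⁻¹ * T d Y) := by
    intro d hdS
    have hs1 : Summable (fun j : ℕ => e ^ j * T d (Y - j * η)) := by
      refine Summable.of_norm_bounded (hgeo.mul_right Mb) fun j => ?_
      rw [norm_mul, norm_pow, Real.norm_eq_abs, Real.norm_eq_abs]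
      have b3 : |T d (Y - j * η)| ≤ Mb := hMb d hdS _ (by
        have : 0 ≤ (j : ℝ) * η := by positivity
        linarith [hY.2])
      exact mul_le_mul (pow_le_pow_left₀ (abs_nonneg e) he j) b3 (abs_nonneg _) (by positivity)
    have hs3 : HasSum (fun j : ℕ => e ^ j * T d Y) ((1 - e)⁻¹ * T d Y) := by
      refine HasSum.mul_right _ (hasSum_geometric_of_norm_lt_one ?_)
      rw [Real.norm_eq_abs]
      exact lt_of_le_of_lt he hq1
    have hs4 := hs1.hasSum.sub hs3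
    refine hs4.congr_fun ?_
    intro j
    ring
  have hlim : Tendsto (fun N : ℕ => ∑ d ∈ S,
      (∑ j ∈ range N, e ^ j * (T d (Y - j * η) - T d Y)) ^ 2) atTop
      (𝓝 (∑ d ∈ S, ((∑' j : ℕ, e ^ j * T d (Y - j * η)) - (1 - e)⁻¹ * T d Y) ^ 2)) :=
    tendsto_finsetSum _ fun d hdS => ((hs2 d hdS).tendsto_sum_nat).pow 2
  have hle := le_of_tendsto' hlim hfin
  have heq : ∀ d ∈ S, ((1 - e) * ∑' j : ℕ, e ^ j * T d (Y - j * η) - T d Y) ^ 2 =
      (1 - e) ^ 2 * ((∑' j : ℕ, e ^ j * T d (Y - j * η)) - (1 - e)⁻¹ * T d Y) ^ 2 := by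
    intro d _
    rw [← mul_pow, mul_sub, ← mul_assoc, mul_inv_cancel₀ hene, one_mul]
  rw [sum_congr rfl heq, ← mul_sum]
  have h4 : (1 - e) ^ 2 ≤ 4 := by nlinarith only [he1, he2]
  calc (1 - e) ^ 2 * ∑ d ∈ S, ((∑' j : ℕ, e ^ j * T d (Y - j * η)) - (1 - e)⁻¹ * T d Y) ^ 2
      ≤ 4 * ((1 - q)⁻¹ * (16 * K) * η ^ 2 * B) :=
        mul_le_mul h4 hle (sum_nonneg fun d _ => sq_nonneg _) (by norm_num)
    _ = 4 * ((1 - q)⁻¹ * (16 * K)) * η ^ 2 * B := by ring

end Pool.Agent.MP0016c7.PC
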