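import Pool.Agent.Lib.MP_0016c7_nt.PC.H.StmQ
import Pool.Agent.Lib.MP_0016c7_nt.Rz.Sm4
import Pool.Agent.Lib.MP_0016c7_nt.Rz.TestR
import Pool.Agent.Lib.MP_0016c7_nt.Rz2.SmG
import Pool.Agent.Lib.MP_0016c7_nt.Rz2.YS1

set_option autoImplicit false

/-!
Block [H], part Q: the second moment of the process over the family (piece Q3).
-/

open Finset MeasureTheory Filter Topology
open scoped Real ContDiff

namespace Pool.Agent.MP0016c7.PC

open Pool.Agent.MP0016c7.Rz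

private lemma Q3_bump_integrable {ρ : ℝ → ℝ} {a b : ℝ} (h : Bump ρ a b) : Integrable ρ := by
  refine (h.smooth.continuous).integrable_of_hasCompactSupport ?_
  refine HasCompactSupport.intro (K := Set.Icc a b) isCompact_Icc (fun x hx => ?_)
  by_contra hne
  exact hx ⟨(h.supp x hne).1.le, (h.supp x hne).2.le⟩

private lemma Q3_HH_le {h : ℝ → ℝ} {θ : ℝ} (hh : Bump h 0 θ) (t : ℝ) : |HH h t| ≤ ∫ x, |h x| := by
  unfold HH
  calc |∫ x in Set.Ioi t, h x| ≤ ∫ x in Set.Ioi t, |h x| := abs_integral_le_integral_abs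
    _ ≤ ∫ x, |h x| := by
      apply setIntegral_le_integral (Q3_bump_integrable hh).abs
      exact Filter.Eventually.of_forall (fun x => abs_nonneg _)

private lemma Q3_CC_le {ρ h : ℝ → ℝ} {θ δ : ℝ} (hδ4 : δ ≤ 1 / 4)
    (hρ : Bump ρ (-(δ / 2)) (δ / 2)) (hh : Bump h 0 θ) :
    ∃ B : ℝ, 0 ≤ B ∧ ∀ Y ∈ Set.Icc (-1 : ℝ) (1 / 2 + δ), |CC ρ ρ h Y Y| ≤ B := by
  set A := ∫ x, |h x| with hA
  set H := ∫ t, h t ^ 2 with hH
  have hA0 : 0 ≤ A := integral_nonneg (fun x => abs_nonneg _)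
  have hH0 : 0 ≤ H := integral_nonneg (fun x => sq_nonneg _)
  set C₀ := A * A + H * 10 with hC₀
  have hC0 : 0 ≤ C₀ := by (clear * -; positivity)
  have hint := Q3_bump_integrable hρ
  set R := ∫ x, |ρ x| with hR
  refine ⟨R * (C₀ * R), by (clear * -; positivity), fun Y hY => ?_⟩
  unfold CC
  have hpt : ∀ x y : ℝ, |ρ x * ρ y * (HH h (x - Y) * HH h (y - Y) +
      H * (max (min (Y - x) (Y - y)) 0 - max (Y - x + (Y - y) - 1) 0))| ≤ |ρ x| * (C₀ * |ρ y|) := by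
    intro x y
    by_cases hx : ρ x = 0
    · simp [hx]
    by_cases hy : ρ y = 0
    · simp [hy]
    have hx' := hρ.supp x hx
    have hy' := hρ.supp y hy
    rw [abs_mul, abs_mul]
    have h1 : |HH h (x - Y) * HH h (y - Y) +
      H * (max (min (Y - x) (Y - y)) 0 - max (Y - x + (Y - y) - 1) 0)| ≤ C₀ := by
      refine (abs_add_le _ _).trans ?_
      rw [abs_mul, abs_mul, abs_of_nonneg hH0]
      refine add_le_add (mul_le_mul (Q3_HH_le hh _) (Q3_HH_le hh _) (abs_nonneg _) hA0) ?_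
      refine mul_le_mul_of_nonneg_left ?_ hH0
      rw [abs_le]
      have h1 : 0 ≤ max (min (Y - x) (Y - y)) 0 := le_max_right _ _
      have h2 : 0 ≤ max (Y - x + (Y - y) - 1) 0 := le_max_right _ _
      have h3 : max (min (Y - x) (Y - y)) 0 ≤ 2 :=
        max_le ((min_le_left _ _).trans (by linarith only [hδ4, hx', hY, hY.2])) (by norm_num)
      have h4 : max (Y - x + (Y - y) - 1) 0 ≤ 10 :=
        max_le (by linarith only [hδ4, hx', hy', hY, hY.2]) (by norm_num)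
      constructor <;> linarith
    calc |ρ x| * |ρ y| * _ ≤ |ρ x| * |ρ y| * C₀ := by gcongr
      _ = |ρ x| * (C₀ * |ρ y|) := by ring
  have hin : ∀ x : ℝ, |∫ y : ℝ, ρ x * ρ y * (HH h (x - Y) * HH h (y - Y) +
      H * (max (min (Y - x) (Y - y)) 0 - max (Y - x + (Y - y) - 1) 0))| ≤ |ρ x| * (C₀ * R) := by
    intro x
    have := norm_integral_le_of_norm_le (μ := volume)
      (f := fun y : ℝ => ρ x * ρ y * (HH h (x - Y) * HH h (y - Y) +
      H * (max (min (Y - x) (Y - y)) 0 - max (Y - x + (Y - y) - 1) 0)))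
      (g := fun y => |ρ x| * (C₀ * |ρ y|)) ((hint.abs.const_mul C₀).const_mul |ρ x|)
      (Filter.Eventually.of_forall (fun y => hpt x y))
    rw [integral_const_mul, integral_const_mul, ← hR] at this
    exact this
  have := norm_integral_le_of_norm_le (μ := volume)
      (f := fun x : ℝ => ∫ y : ℝ, ρ x * ρ y * (HH h (x - Y) * HH h (y - Y) +
      H * (max (min (Y - x) (Y - y)) 0 - max (Y - x + (Y - y) - 1) 0)))
      (g := fun x => |ρ x| * (C₀ * R)) (hint.abs.mul_const (C₀ * R))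
      (Filter.Eventually.of_forall (fun x => hin x))
  rw [integral_mul_const, ← hR] at this
  exact this

private lemma Q3_abs {δ : ℝ} (hδ4 : δ ≤ 1 / 4) (P : ℕ → Prop) [DecidablePred P] (m : ℝ) (hm : 0 < m)
    (y : ℝ → ℕ → ℝ → ℝ) {ρ h : ℝ → ℝ} {θ : ℝ}
    (hρ : Bump ρ (-(δ / 2)) (δ / 2)) (hh : Bump h 0 θ)
    (hsm : ∀ F : ℝ → ℝ, Bump F (1 / 2) 4 → 0 < ∫ t, F t → ∃ X₀ : ℝ, ∀ X : ℝ, X₀ ≤ X →
      ∀ Y ∈ Set.Icc (-1 : ℝ) (1 / 2 + δ),
      |m / X * ∑' d : ℕ, (if P d then F (d / X) * (y X d Y * y X d Y) else 0) -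
        (∫ t, F t) * CC ρ ρ h Y Y| ≤ 1)
    (hsmall : ∃ X₀ : ℝ, ∀ X : ℝ, X₀ ≤ X → ∀ Y : ℝ, Y ≤ -1 → ∀ d : ℕ,
      |y X d Y| ≤ X ^ (-30 : ℝ)) :
    ∃ B X₀ : ℝ, 0 ≤ B ∧ ∀ X : ℝ, X₀ ≤ X → ∀ S : Finset ℕ,
      (∀ d ∈ S, P d ∧ X < d ∧ (d : ℝ) ≤ 2 * X) → ∀ Y ≤ 1 / 2 + δ,
      ∑ d ∈ S, y X d Y ^ 2 ≤ B * X := by
  obtain ⟨F, hF, hF0, hF1, hF2⟩ := exists_F 1 one_pos
  obtain ⟨B, hB, hCC⟩ := Q3_CC_le hδ4 hρ hh
  have hFint : 0 < ∫ t, F t := by
    have h1 : Integrable F := Q3_bump_integrable hF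
    have h2 : ∫ t in Set.Icc (1 : ℝ) 2, (1 : ℝ) ≤ ∫ t in Set.Icc (1 : ℝ) 2, F t := by
      apply setIntegral_mono_on _ h1.integrableOn measurableSet_Icc (fun t ht => hF1 t ht)
      simp
    have h3 : ∫ t in Set.Icc (1 : ℝ) 2, F t ≤ ∫ t, F t :=
      setIntegral_le_integral h1 (Filter.Eventually.of_forall hF0)
    have h4 : ∫ t in Set.Icc (1 : ℝ) 2, (1 : ℝ) = 1 := by
      simp
      norm_num
    linarith only [h2, h3, h4]
  obtain ⟨X₀, hX₀⟩ := hsm F hF hFint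
  obtain ⟨X₁, hX₁⟩ := hsmall
  refine ⟨((∫ t, F t) * B + 1) / m + 2, max 2 (max X₀ X₁),
    by (clear * - hFint hB hm; positivity), fun X hX S hS Y hY => ?_⟩
  have hX2 : 2 ≤ X := (le_max_left _ _).trans hX
  have hX0 : 0 < X := by linarith only [hX2]
  have hXa : X₀ ≤ X := ((le_max_left _ _).trans (le_max_right _ _)).trans hX
  have hXb : X₁ ≤ X := ((le_max_right _ _).trans (le_max_right _ _)).trans hX
  have hK : 0 ≤ ((∫ t, F t) * B + 1) / m := by (clear * - hFint hB hm; positivity)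
  rcases le_or_gt (-1) Y with hY1 | hY1
  swap
  · -- the heights below `-1`
    have hc : (S.card : ℝ) ≤ 2 * X := by
      have h1 : S ⊆ Finset.Icc 1 ⌊2 * X⌋₊ := by
        intro d hd
        obtain ⟨-, h2, h3⟩ := hS d hd
        rw [Finset.mem_Icc]
        refine ⟨?_, Nat.le_floor h3⟩
        have : (0 : ℝ) < d := hX0.trans h2
        exact_mod_cast this
      have h2 := Finset.card_le_card h1
      rw [Nat.card_Icc, Nat.add_sub_cancel] at h2
      exact (Nat.cast_le.2 h2).trans (Nat.floor_le (by positivity))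
    have ht : ∀ d ∈ S, y X d Y ^ 2 ≤ 1 := by
      intro d _
      have h1 := hX₁ X hXb Y hY1.le d
      have h2 : X ^ (-30 : ℝ) ≤ 1 :=
        Real.rpow_le_one_of_one_le_of_nonpos (by linarith only [hX2]) (by norm_num)
      rw [sq_le_one_iff_abs_le_one]
      exact h1.trans h2
    have h3 : ∑ d ∈ S, y X d Y ^ 2 ≤ S.card := by
      have := Finset.sum_le_sum ht
      rwa [Finset.sum_const, nsmul_eq_mul, mul_one] at this
    have h4 : 0 ≤ ((∫ t, F t) * B + 1) / m * X := mul_nonneg hK hX0.le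
    linarith only [h3, hc, h4]
  have h1 := hX₀ X hXa Y ⟨hY1, hY⟩
  set T := ∑' d : ℕ, (if P d then F (d / X) * (y X d Y * y X d Y) else 0) with hT
  have h2 : m / X * T ≤ (∫ t, F t) * B + 1 := by
    have h3 := (abs_le.1 h1).2
    have h4 : (∫ t, F t) * CC ρ ρ h Y Y ≤ (∫ t, F t) * B :=
      mul_le_mul_of_nonneg_left ((le_abs_self _).trans (hCC Y ⟨hY1, hY⟩)) hFint.le
    linarith only [h3, h4]
  have h5 : T ≤ ((∫ t, F t) * B + 1) / m * X := by
    have : T = (m / X * T) * (X / m) := by field_simp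
    rw [this]
    calc (m / X * T) * (X / m) ≤ ((∫ t, F t) * B + 1) * (X / m) :=
          mul_le_mul_of_nonneg_right h2 (by positivity)
      _ = _ := by ring
  have h6 : T ≤ (((∫ t, F t) * B + 1) / m + 2) * X := by linarith only [h5, hX0]
  refine le_trans ?_ h6
  have hnn : ∀ d : ℕ, 0 ≤ (if P d then F (d / X) * (y X d Y * y X d Y) else 0) := by
    intro d
    split_ifs
    · exact mul_nonneg (hF0 _) (mul_self_nonneg _)
    · exact le_rfl
  have hsum : Summable (fun d : ℕ => (if P d then F (d / X) * (y X d Y * y X d Y) else 0)) := by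
    apply summable_of_hasFiniteSupport
    refine (Set.finite_Iic ⌈4 * X⌉₊).subset (fun d hd => ?_)
    rw [Function.mem_support] at hd
    have h6 : F (d / X) ≠ 0 := by
      intro h0
      apply hd
      simp [h0]
    have h7 := (hF.supp _ h6).2
    rw [div_lt_iff₀ hX0] at h7
    rw [Set.mem_Iic]
    exact_mod_cast h7.le.trans (Nat.le_ceil _)
  calc ∑ d ∈ S, y X d Y ^ 2 ≤ ∑ d ∈ S, (if P d then F (d / X) *
    (y X d Y * y X d Y) else 0) := by
        refine Finset.sum_le_sum (fun d hd => ?_)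
        obtain ⟨ho, hl, hu⟩ := hS d hd
        rw [if_pos ho, ← sq]
        have : 1 ≤ F (d / X) := hF1 _ ⟨by rw [le_div_iff₀ hX0]; linarith only [hl], by
          rw [div_le_iff₀ hX0]; linarith only [hu]⟩
        nlinarith only [this, sq_nonneg (y X d Y)]
    _ ≤ T := hsum.sum_le_tsum S (fun d _ => hnn d)

open Classical in
theorem p_Q3 : S_Q3 := by
  intro θ δ hδ hδ4 hθ hθ1 σ hσ a₀ ha₀ ρ h hρ hh
  obtain ⟨X₁, hX₁⟩ := ytil_small hδ hθ hθ1 hρ hh a₀ ha₀ σ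
  obtain ⟨X₂, hX₂⟩ := ytil_trunc hδ hθ hθ1 hρ hh a₀ ha₀ σ
  refine ⟨fun hE => ?_, fun hE m c ε κ hf => ?_, ?_⟩
  · refine Q3_abs hδ4 Odd 2 (by norm_num) (fun X d Y => ytil a₀ σ ρ h X d Y) hρ hh ?_
      ⟨X₁, fun X hX Y hY d => hX₁ X hX Y hY d⟩
    intro F hF hFint
    obtain ⟨X₀, hX₀⟩ := second_moment hδ hδ4 hθ hθ1 hE (a := 1 / 2) (b := 4) (by norm_num) hF hFint
      σ hσ 1 odd_one squarefree_one a₀ ha₀ hρ hρ hh 1 one_pos
    refine ⟨X₀, fun X hX Y hY => ?_⟩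
    have h1 := hX₀ X hX Y hY Y hY
    simp only [Nat.cast_one, one_pow, mul_one, one_mul] at h1
    convert h1 using 8
  · have hm : (0 : ℝ) < (m : ℝ) := by
      rcases hf with ⟨h1, -⟩ | ⟨h1, -⟩ | ⟨h1, -⟩ <;> rw [h1] <;> norm_num
    refine Q3_abs hδ4 (Rf m c σ) m hm (fun X d Y => ytil a₀ σ ρ h X (2 * d) Y) hρ hh ?_
      ⟨X₁, fun X hX Y hY d => hX₁ X hX Y hY (2 * d)⟩
    intro F hF hFint
    obtain ⟨X₀, hX₀⟩ := second_momentG hδ hδ4 hθ hθ1 hE (a := 1 / 2) (b := 4) (by norm_num) hF hFint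
      σ hσ hf 1 odd_one a₀ ha₀ hρ hρ hh 1 one_pos
    refine ⟨X₀, fun X hX Y hY => ?_⟩
    have h1 := hX₀ X hX Y hY Y hY
    simp only [Nat.cast_one, one_pow, mul_one, one_mul] at h1
    exact h1
  · refine ⟨max 1 (max X₁ X₂), fun X hX d Y hY => ?_⟩
    have hX1 : 1 ≤ X := (le_max_left _ _).trans hX
    have hXa : X₁ ≤ X := ((le_max_left _ _).trans (le_max_right _ _)).trans hX
    have hXb : X₂ ≤ X := ((le_max_right _ _).trans (le_max_right _ _)).trans hX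
    rcases le_or_gt (-1) Y with h' | h'
    · exact (hX₂ X hXb Y ⟨h', hY⟩ d).1
    · refine (hX₁ X hXa Y h'.le d).trans ?_
      have e1 : X ^ (-30 : ℝ) ≤ 1 := Real.rpow_le_one_of_one_le_of_nonpos hX1 (by norm_num)
      exact e1.trans (one_le_pow₀ hX1)

end Pool.Agent.MP0016c7.PC
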