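import Mathlib
import Pool.Agent.Lib.MP_0016c7_nt.PC.H.StmQ
import Pool.Agent.Lib.MP_0016c7_nt.Rz.Ker4

set_option autoImplicit false

/-!
Block [H], part Q, piece Q4: the family `8 σ d`.
-/

open Finset MeasureTheory Filter Topology
open scoped Real ContDiff

namespace Pool.Agent.MP0016c7.PC

open Pool.Agent.MP0016c7.Rz

private lemma Q4_bump_deriv {ρ : ℝ → ℝ} {a b : ℝ} (h : Bump ρ a b) : Bump (deriv ρ) a b := by
  refine ⟨(contDiff_infty_iff_deriv.1 h.smooth).2, fun t ht => ?_⟩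
  have hd : DifferentiableAt ℝ ρ t := (h.smooth.differentiable (by simp)) t
  constructor
  · by_contra hta
    rw [not_lt] at hta
    apply ht
    have h1 : HasDerivWithinAt ρ (deriv ρ t) (Set.Iic t) t := hd.hasDerivAt.hasDerivWithinAt
    have hz : ∀ x ∈ Set.Iic t, ρ x = 0 := fun x hx => by
      by_contra hne
      exact absurd (h.supp x hne).1 (not_lt.2 (le_trans hx hta))
    have h2 : HasDerivWithinAt ρ 0 (Set.Iic t) t :=
      (hasDerivWithinAt_const t (Set.Iic t) (0 : ℝ)).congr hz (hz t Set.self_mem_Iic)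
    exact (uniqueDiffWithinAt_Iic t).eq_deriv _ h1 h2
  · by_contra hta
    rw [not_lt] at hta
    apply ht
    have h1 : HasDerivWithinAt ρ (deriv ρ t) (Set.Ici t) t := hd.hasDerivAt.hasDerivWithinAt
    have hz : ∀ x ∈ Set.Ici t, ρ x = 0 := fun x hx => by
      by_contra hne
      exact absurd (h.supp x hne).2 (not_lt.2 (le_trans hta hx))
    have h2 : HasDerivWithinAt ρ 0 (Set.Ici t) t :=
      (hasDerivWithinAt_const t (Set.Ici t) (0 : ℝ)).congr hz (hz t Set.self_mem_Ici)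
    exact (uniqueDiffWithinAt_Ici t).eq_deriv _ h1 h2

theorem p_Q4 (h1 : S_Q1) (h3 : S_Q3) : S_Q4 := by
  intro θ δ hδ hδ4 hθ hθ1 hE σ hσ a₀ ha₀ ρ h hρ hh
  have hρ' := Q4_bump_deriv hρ
  obtain ⟨B, X₁, hB, hX₁⟩ := (h3 θ δ hδ hδ4 hθ hθ1 σ hσ a₀ ha₀ (deriv ρ) h hρ' hh).1 hE
  have hlim : Tendsto (fun X : ℝ => Real.log 16 / (2 * Real.log X)) atTop (𝓝 0) :=
    Tendsto.const_div_atTop (Real.tendsto_log_atTop.const_mul_atTop (by norm_num)) _
  have hev := (hlim.eventually_lt_const hδ).and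
    ((eventually_gt_atTop (1 : ℝ)).and (eventually_ge_atTop X₁))
  obtain ⟨X₀, hX₀⟩ := eventually_atTop.1 hev
  refine ⟨(1 / 2 + δ) * (Real.log 16 ^ 2 / 4 * B), X₀, fun X hX S hS => ?_⟩
  obtain ⟨hβδ, hX1, hXX₁⟩ := hX₀ X hX
  have hL : 0 < Real.log X := Real.log_pos hX1
  set β := Real.log 16 / (2 * Real.log X) with hβ
  have hβ0 : 0 < β := by
    have : 0 < Real.log 16 := Real.log_pos (by norm_num)
    positivity
  have hX0 : (0 : ℝ) < X := by linarith
  have hder : ∀ d ∈ S, ∀ Y, HasDerivAt ((fun d Y => ytil a₀ σ ρ h X d Y) d)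
      ((fun d Y => ytil a₀ σ (deriv ρ) h X d Y) d Y) Y := fun d _ Y =>
    hasDerivAt_ytil hδ hρ hh a₀ ha₀ σ X hX1 d Y
  have hcont : ∀ d ∈ S, Continuous ((fun d Y => ytil a₀ σ (deriv ρ) h X d Y) d) := fun d _ =>
    continuous_iff_continuousAt.2 (fun Y =>
      (hasDerivAt_ytil hδ hρ' hh a₀ ha₀ σ X hX1 d Y).continuousAt)
  have hb : ∀ d ∈ S, 1 / 2 ≤ (fun d : ℕ => Real.log (8 * d) / (2 * Real.log X)) d ∧
      (fun d : ℕ => Real.log (8 * d) / (2 * Real.log X)) d ≤ 1 / 2 + β := by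
    intro d hd
    obtain ⟨-, hl, hu⟩ := hS d hd
    have hd0 : (0 : ℝ) < d := by linarith
    have e1 : Real.log X ≤ Real.log (8 * d) := Real.log_le_log hX0 (by linarith)
    have e2 : Real.log (8 * d) ≤ Real.log 16 + Real.log X := by
      rw [← Real.log_mul (by norm_num) hX0.ne']
      exact Real.log_le_log (by linarith) (by linarith)
    simp only
    constructor
    · rw [le_div_iff₀ (by positivity)]
      linarith
    · rw [div_le_iff₀ (by positivity), hβ]
      have : (1 / 2 + Real.log 16 / (2 * Real.log X)) * (2 * Real.log X) =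
          Real.log X + Real.log 16 := by
        field_simp
      rw [this]
      linarith
  have hbd : ∀ Y ∈ Set.Icc (1 / 2 - (1 / 2 + δ)) (1 / 2 + β),
      ∑ d ∈ S, (fun d Y => ytil a₀ σ (deriv ρ) h X d Y) d Y ^ 2 ≤ B * X := by
    intro Y hY
    exact hX₁ X hXX₁ S hS Y (by linarith [hY.2])
  have key := h1 (1 / 2 + δ) β (B * X) S (fun d Y => ytil a₀ σ ρ h X d Y)
    (fun d Y => ytil a₀ σ (deriv ρ) h X d Y)
    (fun d : ℕ => Real.log (8 * d) / (2 * Real.log X)) (by positivity) hβ0.le hder hcont hb hbd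
  simp only [one_mul]
  refine key.trans (le_of_eq ?_)
  rw [hβ]
  field_simp
  ring

end Pool.Agent.MP0016c7.PC
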