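import Mathlib
import Pool.Agent.Lib.MP_0016c7_nt.PC.H.StmQ
import Pool.Agent.Lib.MP_0016c7_nt.Rz.Ker4
import Pool.Agent.Lib.MP_0016c7_nt.Rz2.YS1

set_option autoImplicit false

/-!
Block [H], part Q, piece Q5: the families `4 σ d`, `σ d`.
-/

open Finset MeasureTheory Filter Topology
open scoped Real ContDiff

namespace Pool.Agent.MP0016c7.PC

open Pool.Agent.MP0016c7.Rz

private lemma Q5_bump_deriv {ρ : ℝ → ℝ} {a b : ℝ} (h : Bump ρ a b) : Bump (deriv ρ) a b := by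
  refine ⟨(contDiff_infty_iff_deriv.1 h.smooth).2, fun t ht => ?_⟩
  have hd : DifferentiableAt ℝ ρ t := (h.smooth.differentiable (by simp)) t
  constructor
  · by_contra hta
    rw [not_lt] at hta
    apply ht
    have h1 : HasDerivWithinAt ρ (deriv ρ t) (Set.Iic t) t := hd.hasDerivAt.hasDerivWithinAt
    have hz : ∀ x ∈ Set.Iic t, ρ x = 0 := fun x hx => by
      by_contra hne
      exact absurd (h.supp x hne).1 (not_lt.2 (le_trans hx hta))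
    have h2 : HasDerivWithinAt ρ 0 (Set.Iic t) t :=
      (hasDerivWithinAt_const t (Set.Iic t) (0 : ℝ)).congr hz (hz t Set.self_mem_Iic)
    exact (uniqueDiffWithinAt_Iic t).eq_deriv _ h1 h2
  · by_contra hta
    rw [not_lt] at hta
    apply ht
    have h1 : HasDerivWithinAt ρ (deriv ρ t) (Set.Ici t) t := hd.hasDerivAt.hasDerivWithinAt
    have hz : ∀ x ∈ Set.Ici t, ρ x = 0 := fun x hx => by
      by_contra hne
      exact absurd (h.supp x hne).2 (not_lt.2 (le_trans hta hx))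
    have h2 : HasDerivWithinAt ρ 0 (Set.Ici t) t :=
      (hasDerivWithinAt_const t (Set.Ici t) (0 : ℝ)).congr hz (hz t Set.self_mem_Ici)
    exact (uniqueDiffWithinAt_Ici t).eq_deriv _ h1 h2

private lemma Q5_eps {m c ε : ℤ} {κ : ℕ} (hf : Fam m c ε κ) : ε = 0 ∨ ε = 1 ∨ ε = -1 := by
  rcases hf with ⟨-, -, h1, -⟩ | ⟨-, -, h1, -⟩ | ⟨-, -, h1, -⟩ <;> rw [h1] <;> norm_num

private lemma Q5_abs_eps {ε : ℤ} (hε : ε = 0 ∨ ε = 1 ∨ ε = -1) : |(ε : ℝ) / √2| ≤ 1 / √2 := by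
  have h2 : 0 < √(2 : ℝ) := Real.sqrt_pos.2 (by norm_num)
  rw [abs_div, abs_of_pos h2]
  apply div_le_div_of_nonneg_right _ h2.le
  rcases hε with h | h | h <;> simp [h]

/-- Step 1. -/
private lemma Q5_step1 (h2 : S_Q2) (h3 : S_Q3) {θ δ : ℝ} (hδ : 0 < δ) (hδ4 : δ ≤ 1 / 4)
    (hθ : 0 < θ) (hθ1 : θ + 3 * δ < 1 / 2) (hE : ErrG θ δ) {σ : ℤ} (hσ : σ = 1 ∨ σ = -1)
    {m c ε : ℤ} {κ : ℕ} (hf : Fam m c ε κ) {a₀ : ℝ} (ha₀ : a₀ = 0 ∨ a₀ = 1) {ρ h : ℝ → ℝ}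
    (hρ : Bump ρ (-(δ / 2)) (δ / 2)) (hh : Bump h 0 θ) :
    ∃ B C X₀ : ℝ, 0 ≤ B ∧ 0 ≤ C ∧ ∀ X : ℝ, X₀ ≤ X → 1 < X → ∀ S : Finset ℕ,
      (∀ d ∈ S, Rf m c σ d ∧ X < d ∧ (d : ℝ) ≤ 2 * X) →
      (∀ Y ≤ 1 / 2 + δ, ∑ d ∈ S, ytil a₀ σ ρ h X (2 * d) Y ^ 2 ≤ B * X) ∧
      ∀ Y ∈ Set.Icc (-(1 / 2) : ℝ) (1 / 2 + δ),
        ∑ d ∈ S, (yS a₀ ε σ ρ h X d Y - ytil a₀ σ ρ h X (2 * d) Y) ^ 2 ≤
          C * (Real.log 2 / Real.log X) ^ 2 * X := by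
  have hρ' := Q5_bump_deriv hρ
  have hs2 : 0 < √(2 : ℝ) := Real.sqrt_pos.2 (by norm_num)
  have hq1 : 1 / √(2 : ℝ) < 1 := by
    rw [div_lt_one hs2]
    exact Real.lt_sqrt_of_sq_lt (by norm_num)
  obtain ⟨C, hC, hC2⟩ := h2 (1 / √2) (by positivity) hq1
  obtain ⟨-, hG, X₃, hX₃⟩ := h3 θ δ hδ hδ4 hθ hθ1 σ hσ a₀ ha₀ ρ h hρ hh
  obtain ⟨-, hG', -⟩ := h3 θ δ hδ hδ4 hθ hθ1 σ hσ a₀ ha₀ (deriv ρ) h hρ' hh
  obtain ⟨B₁, X₁, hB₁, hX₁⟩ := hG hE m c ε κ hf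
  obtain ⟨B₂, X₂, hB₂, hX₂⟩ := hG' hE m c ε κ hf
  refine ⟨B₁, C * (max B₁ B₂), max (max X₁ X₂) X₃, hB₁, mul_nonneg hC (le_max_of_le_left hB₁),
    fun X hX hX1 S hS => ?_⟩
  have hXX₁ : X₁ ≤ X := ((le_max_left _ _).trans (le_max_left _ _)).trans hX
  have hXX₂ : X₂ ≤ X := ((le_max_right _ _).trans (le_max_left _ _)).trans hX
  have hXX₃ : X₃ ≤ X := (le_max_right _ _).trans hX
  have hX0 : (0 : ℝ) < X := by linarith
  refine ⟨fun Y hY => hX₁ X hXX₁ S hS Y hY, fun Y hY => ?_⟩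
  have hL : 0 < Real.log X := Real.log_pos hX1
  have hl2 : 0 < Real.log 2 := Real.log_pos (by norm_num)
  have key := hC2 ((ε : ℝ) / √2) (Real.log 2 / Real.log X) (max B₁ B₂ * X) (X ^ 20) (1 / 2 + δ) S
    (fun d Y => ytil a₀ σ ρ h X (2 * d) Y) (fun d Y => ytil a₀ σ (deriv ρ) h X (2 * d) Y)
    (Q5_abs_eps (Q5_eps hf)) (by positivity)
    (mul_nonneg (le_max_of_le_left hB₁) hX0.le)
    (fun d _ Y => hasDerivAt_ytil hδ hρ hh a₀ ha₀ σ X hX1 (2 * d) Y)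
    (fun d _ => continuous_iff_continuousAt.2 (fun Y =>
      (hasDerivAt_ytil hδ hρ' hh a₀ ha₀ σ X hX1 (2 * d) Y).continuousAt))
    (fun d _ Y hY => hX₃ X hXX₃ (2 * d) Y hY)
    (fun Y hY => (hX₁ X hXX₁ S hS Y hY).trans
      (mul_le_mul_of_nonneg_right (le_max_left _ _) hX0.le))
    (fun Y hY => (hX₂ X hXX₂ S hS Y hY.2).trans
      (mul_le_mul_of_nonneg_right (le_max_right _ _) hX0.le))
    Y hY
  have e1 : ∀ d : ℕ, yS a₀ ε σ ρ h X d Y = (1 - (ε : ℝ) / √2) *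
      ∑' j : ℕ, ((ε : ℝ) / √2) ^ j * ytil a₀ σ ρ h X (2 * d)
        (Y - j * (Real.log 2 / Real.log X)) := by
    intro d
    unfold yS
    congr 1
    refine tsum_congr fun j => ?_
    rw [div_pow, mul_div_assoc]
  calc ∑ d ∈ S, (yS a₀ ε σ ρ h X d Y - ytil a₀ σ ρ h X (2 * d) Y) ^ 2
      = ∑ d ∈ S, ((1 - (ε : ℝ) / √2) * ∑' j : ℕ, ((ε : ℝ) / √2) ^ j * ytil a₀ σ ρ h X (2 * d)
        (Y - j * (Real.log 2 / Real.log X)) - ytil a₀ σ ρ h X (2 * d) Y) ^ 2 :=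
        Finset.sum_congr rfl fun d _ => by rw [e1 d]
    _ ≤ C * (Real.log 2 / Real.log X) ^ 2 * (max B₁ B₂ * X) := key
    _ = C * max B₁ B₂ * (Real.log 2 / Real.log X) ^ 2 * X := by ring

theorem p_Q5 (h1 : S_Q1) (h2 : S_Q2) (h3 : S_Q3) : S_Q5 := by
  intro θ δ hδ hδ4 hθ hθ1 hE σ hσ m c ε κ hf a₀ ha₀ ρ h hρ hh
  have hρ' := Q5_bump_deriv hρ
  have hεs := Q5_eps hf
  have hκ : (1 : ℝ) ≤ κ ∧ (κ : ℝ) ≤ 4 := by
    rcases hf with ⟨-, -, -, h1⟩ | ⟨-, -, -, h1⟩ | ⟨-, -, -, h1⟩ <;> rw [h1] <;> norm_num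
  obtain ⟨B₁, C₁, X₁, hB₁, hC₁, hX₁⟩ :=
    Q5_step1 h2 h3 hδ hδ4 hθ hθ1 hE hσ hf ha₀ hρ hh
  obtain ⟨B₂, C₂, X₂, hB₂, hC₂, hX₂⟩ :=
    Q5_step1 h2 h3 hδ hδ4 hθ hθ1 hE hσ hf ha₀ hρ' hh
  have hlim : Tendsto (fun X : ℝ => Real.log 16 / (2 * Real.log X)) atTop (𝓝 0) :=
    Tendsto.const_div_atTop (Real.tendsto_log_atTop.const_mul_atTop (by norm_num)) _
  have hev := (hlim.eventually_lt_const hδ).and
    ((eventually_ge_atTop (2 : ℝ)).and ((eventually_ge_atTop X₁).and (eventually_ge_atTop X₂)))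
  obtain ⟨X₀, hX₀⟩ := eventually_atTop.1 hev
  refine ⟨(1 / 2 + δ) * (2 * C₁ * Real.log 2 ^ 2 +
    Real.log 16 ^ 2 / 2 * (2 * C₂ + 2 * B₂)), X₀, fun X hX S hS => ?_⟩
  obtain ⟨hβδ, hX2, hXX₁, hXX₂⟩ := hX₀ X hX
  have hX1 : (1 : ℝ) < X := by linarith
  have hX0 : (0 : ℝ) < X := by linarith
  have hL : 0 < Real.log X := Real.log_pos hX1
  have hl2 : 0 < Real.log 2 := Real.log_pos (by norm_num)
  have hl16 : 0 < Real.log 16 := Real.log_pos (by norm_num)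
  set β := Real.log 16 / (2 * Real.log X) with hβ
  have hβ0 : 0 < β := by positivity
  have hη1 : (Real.log 2 / Real.log X) ^ 2 ≤ 1 := by
    apply pow_le_one₀ (by positivity)
    rw [div_le_one hL]
    exact Real.log_le_log (by norm_num) hX2
  obtain ⟨-, hstep⟩ := hX₁ X hXX₁ hX1 S hS
  obtain ⟨hB2, hstep'⟩ := hX₂ X hXX₂ hX1 S hS
  have hVpos : (0 : ℝ) ≤ 1 / 2 + δ := by positivity
  -- continuity
  have hcY : ∀ d : ℕ, Continuous (fun Y => ytil a₀ σ ρ h X (2 * d) Y) := fun d =>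
    continuous_iff_continuousAt.2 (fun Y =>
      (hasDerivAt_ytil hδ hρ hh a₀ ha₀ σ X hX1 (2 * d) Y).continuousAt)
  have hcS : ∀ d : ℕ, Continuous (fun Y => yS a₀ ε σ ρ h X d Y) := fun d =>
    continuous_iff_continuousAt.2 (fun Y =>
      (hasDerivAt_yS hδ hρ hh a₀ ha₀ ε σ hεs X hX1 d Y).continuousAt)
  have hcS' : ∀ d : ℕ, Continuous (fun Y => yS a₀ ε σ (deriv ρ) h X d Y) := fun d =>
    continuous_iff_continuousAt.2 (fun Y =>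
      (hasDerivAt_yS hδ hρ' hh a₀ ha₀ ε σ hεs X hX1 d Y).continuousAt)
  -- step 2
  have hb : ∀ d ∈ S, 1 / 2 ≤ (fun d : ℕ => Real.log (κ * d) / (2 * Real.log X)) d ∧
      (fun d : ℕ => Real.log (κ * d) / (2 * Real.log X)) d ≤ 1 / 2 + β := by
    intro d hd
    obtain ⟨-, hl, hu⟩ := hS d hd
    have hd0 : (0 : ℝ) < d := by linarith
    have e1 : Real.log X ≤ Real.log (κ * d) := Real.log_le_log hX0 (by nlinarith [hκ.1])
    have e2 : Real.log (κ * d) ≤ Real.log 16 + Real.log X := by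
      rw [← Real.log_mul (by norm_num) hX0.ne']
      exact Real.log_le_log (mul_pos (by linarith [hκ.1]) hd0) (by nlinarith [hκ.2])
    simp only
    constructor
    · rw [le_div_iff₀ (by positivity)]
      linarith
    · rw [div_le_iff₀ (by positivity), hβ]
      have : (1 / 2 + Real.log 16 / (2 * Real.log X)) * (2 * Real.log X) =
          Real.log X + Real.log 16 := by
        field_simp
      rw [this]
      linarith
  have hbd : ∀ Y ∈ Set.Icc (1 / 2 - (1 / 2 + δ)) (1 / 2 + β),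
      ∑ d ∈ S, (fun d Y => yS a₀ ε σ (deriv ρ) h X d Y) d Y ^ 2 ≤ (2 * C₂ + 2 * B₂) * X := by
    intro Y hY
    have hY' : Y ∈ Set.Icc (-(1 / 2) : ℝ) (1 / 2 + δ) :=
      ⟨by linarith [hY.1], by linarith [hY.2]⟩
    have e1 := hstep' Y hY'
    have e2 := hB2 Y hY'.2
    have e3 : C₂ * (Real.log 2 / Real.log X) ^ 2 * X ≤ C₂ * X := by
      have : C₂ * (Real.log 2 / Real.log X) ^ 2 ≤ C₂ * 1 := mul_le_mul_of_nonneg_left hη1 hC₂
      nlinarith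
    have e4 : ∑ d ∈ S, (fun d Y => yS a₀ ε σ (deriv ρ) h X d Y) d Y ^ 2 ≤
        ∑ d ∈ S, (2 * (yS a₀ ε σ (deriv ρ) h X d Y - ytil a₀ σ (deriv ρ) h X (2 * d) Y) ^ 2 +
          2 * ytil a₀ σ (deriv ρ) h X (2 * d) Y ^ 2) := by
      refine Finset.sum_le_sum fun d _ => ?_
      simp only
      nlinarith [sq_nonneg (yS a₀ ε σ (deriv ρ) h X d Y - ytil a₀ σ (deriv ρ) h X (2 * d) Y -
        ytil a₀ σ (deriv ρ) h X (2 * d) Y)]
    rw [Finset.sum_add_distrib, ← Finset.mul_sum, ← Finset.mul_sum] at e4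
    linarith
  have key2 := h1 (1 / 2 + δ) β ((2 * C₂ + 2 * B₂) * X) S (fun d Y => yS a₀ ε σ ρ h X d Y)
    (fun d Y => yS a₀ ε σ (deriv ρ) h X d Y)
    (fun d : ℕ => Real.log (κ * d) / (2 * Real.log X)) hVpos hβ0.le
    (fun d _ Y => hasDerivAt_yS hδ hρ hh a₀ ha₀ ε σ hεs X hX1 d Y) (fun d _ => hcS' d) hb hbd
  -- step 1
  have hsub : Continuous (fun v : ℝ => 1 / 2 - v) := continuous_const.sub continuous_id
  have hc1 : ∀ d : ℕ, Continuous (fun v : ℝ => (yS a₀ ε σ ρ h X d (1 / 2 - v) -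
      ytil a₀ σ ρ h X (2 * d) (1 / 2 - v)) ^ 2) := fun d =>
    (((hcS d).comp hsub).sub ((hcY d).comp hsub)).pow 2
  have hc2 : ∀ d : ℕ, Continuous (fun v : ℝ => (yS a₀ ε σ ρ h X d (1 / 2 - v) -
      yS a₀ ε σ ρ h X d (Real.log (κ * d) / (2 * Real.log X) - v)) ^ 2) := fun d =>
    (((hcS d).comp hsub).sub ((hcS d).comp (continuous_const.sub continuous_id))).pow 2
  have hc3 : ∀ d : ℕ, Continuous (fun v : ℝ => (ytil a₀ σ ρ h X (2 * d) (1 / 2 - v) -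
      yS a₀ ε σ ρ h X d (Real.log (κ * d) / (2 * Real.log X) - v)) ^ 2) := fun d =>
    (((hcY d).comp hsub).sub ((hcS d).comp (continuous_const.sub continuous_id))).pow 2
  have key1 : ∑ d ∈ S, ∫ v in (0 : ℝ)..(1 / 2 + δ), (yS a₀ ε σ ρ h X d (1 / 2 - v) -
      ytil a₀ σ ρ h X (2 * d) (1 / 2 - v)) ^ 2 ≤
      (1 / 2 + δ) * (C₁ * (Real.log 2 / Real.log X) ^ 2 * X) := by
    rw [← intervalIntegral.integral_finsetSum (fun d _ => (hc1 d).intervalIntegrable _ _)]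
    calc ∫ v in (0 : ℝ)..(1 / 2 + δ), ∑ d ∈ S, (yS a₀ ε σ ρ h X d (1 / 2 - v) -
          ytil a₀ σ ρ h X (2 * d) (1 / 2 - v)) ^ 2
        ≤ ∫ v in (0 : ℝ)..(1 / 2 + δ), C₁ * (Real.log 2 / Real.log X) ^ 2 * X := by
          apply intervalIntegral.integral_mono_on hVpos
          · exact (continuous_finsetSum _ (fun d _ => hc1 d)).intervalIntegrable _ _
          · exact intervalIntegrable_const
          · intro v hv
            exact hstep (1 / 2 - v) ⟨by linarith [hv.2], by linarith [hv.1]⟩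
      _ = (1 / 2 + δ) * (C₁ * (Real.log 2 / Real.log X) ^ 2 * X) := by
          rw [intervalIntegral.integral_const]
          simp only [smul_eq_mul, sub_zero]
  have key3 : ∑ d ∈ S, ∫ v in (0 : ℝ)..(1 / 2 + δ), (ytil a₀ σ ρ h X (2 * d) (1 / 2 - v) -
      yS a₀ ε σ ρ h X d (Real.log (κ * d) / (2 * Real.log X) - v)) ^ 2 ≤
      2 * (∑ d ∈ S, ∫ v in (0 : ℝ)..(1 / 2 + δ), (yS a₀ ε σ ρ h X d (1 / 2 - v) -
        ytil a₀ σ ρ h X (2 * d) (1 / 2 - v)) ^ 2) +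
      2 * (∑ d ∈ S, ∫ v in (0 : ℝ)..(1 / 2 + δ), (yS a₀ ε σ ρ h X d (1 / 2 - v) -
        yS a₀ ε σ ρ h X d (Real.log (κ * d) / (2 * Real.log X) - v)) ^ 2) := by
    rw [Finset.mul_sum, Finset.mul_sum, ← Finset.sum_add_distrib]
    refine Finset.sum_le_sum fun d _ => ?_
    have hc4 : Continuous (fun v : ℝ => 2 * (yS a₀ ε σ ρ h X d (1 / 2 - v) -
        ytil a₀ σ ρ h X (2 * d) (1 / 2 - v)) ^ 2) := (hc1 d).const_mul 2
    have hc5 : Continuous (fun v : ℝ => 2 * (yS a₀ ε σ ρ h X d (1 / 2 - v) -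
        yS a₀ ε σ ρ h X d (Real.log (κ * d) / (2 * Real.log X) - v)) ^ 2) := (hc2 d).const_mul 2
    rw [← intervalIntegral.integral_const_mul, ← intervalIntegral.integral_const_mul,
      ← intervalIntegral.integral_add (hc4.intervalIntegrable _ _) (hc5.intervalIntegrable _ _)]
    apply intervalIntegral.integral_mono_on hVpos
    · exact (hc3 d).intervalIntegrable _ _
    · exact (hc4.add hc5).intervalIntegrable _ _
    · intro v _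
      nlinarith [sq_nonneg ((yS a₀ ε σ ρ h X d (1 / 2 - v) -
        ytil a₀ σ ρ h X (2 * d) (1 / 2 - v)) + (yS a₀ ε σ ρ h X d (1 / 2 - v) -
        yS a₀ ε σ ρ h X d (Real.log (κ * d) / (2 * Real.log X) - v)))]
  have hfin : 2 * ((1 / 2 + δ) * (C₁ * (Real.log 2 / Real.log X) ^ 2 * X)) +
      2 * ((1 / 2 + δ) * (β ^ 2 * ((2 * C₂ + 2 * B₂) * X))) =
      (1 / 2 + δ) * (2 * C₁ * Real.log 2 ^ 2 +
    Real.log 16 ^ 2 / 2 * (2 * C₂ + 2 * B₂)) * X / Real.log X ^ 2 := by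
    rw [hβ]
    field_simp
  rw [← hfin]
  refine key3.trans ?_
  linarith [key1, key2]

end Pool.Agent.MP0016c7.PC
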