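import Mathlib
import Pool.Agent.Lib.MP_0016c7_nt.PC.H.StmF

set_option autoImplicit false

/-!
Block [H]: the primes of the families.
-/

open Finset MeasureTheory Filter Topology
open scoped Real ContDiff

namespace Pool.Agent.MP0016c7.PC

open Pool.Agent.MP0016c7.Rz

private lemma r1_sq (σ : ℤ) (hσ : σ = 1 ∨ σ = -1) (p : ℕ) (hp : p.Prime) :
    ¬ IsSquare (σ * (p : ℤ)) := by
  rcases hσ with rfl | rfl
  · rw [one_mul]
    intro h
    obtain ⟨k, hk⟩ := h
    have h1 : p = k.natAbs * k.natAbs := by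
      have := congrArg Int.natAbs hk
      rwa [Int.natAbs_mul, Int.natAbs_natCast] at this
    have h2 : IsSquare p := ⟨k.natAbs, h1⟩
    exact hp.prime.irreducible.not_isSquare h2
  · rintro ⟨k, hk⟩
    have h1 : 0 ≤ k * k := mul_self_nonneg k
    have h2 : (0 : ℤ) < p := by exact_mod_cast hp.pos
    linarith

private lemma r1_odd {m c ε : ℤ} {κ : ℕ} (hf : Fam m c ε κ) (σ : ℤ) (hσ : σ = 1 ∨ σ = -1) (d : ℕ)
    (h : Rf m c σ d) : Odd d := by
  have h1 := h.1
  by_contra hd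
  rw [Nat.not_odd_iff_even] at hd
  obtain ⟨k, hk⟩ := hd
  rcases hf with ⟨e1, e2, _⟩ | ⟨e1, e2, _⟩ | ⟨e1, e2, _⟩ <;> rcases hσ with e3 | e3 <;>
    · subst e1 e2 e3 hk
      push_cast at h1
      omega

private lemma r1_iff (σ : ℤ) (hσ : σ = 1 ∨ σ = -1) (m c : ℤ) (S : Finset ℕ)
    (h : ∀ p : ℕ, (σ * p) % m = c ↔ p % 8 ∈ S) :
    ∀ p : ℕ, p.Prime → (Rf m c σ p ↔ p % 8 ∈ S) := by
  intro p hp
  rw [← h p]
  exact ⟨fun h1 => h1.1, fun h1 => ⟨h1, r1_sq σ hσ p hp⟩⟩

theorem p_R1 : S_R1 := by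
  refine ⟨⟨{1, 3, 5, 7}, Finset.Subset.refl _, by decide, by simp; norm_num, fun p _ => ?_⟩, ?_⟩
  · simp only [Finset.mem_insert, Finset.mem_singleton, Nat.odd_iff]
    omega
  · intro σ hσ m c ε κ hf
    refine ⟨?_, fun d hd => r1_odd hf σ hσ d hd⟩
    rcases hf with ⟨rfl, rfl, _⟩ | ⟨rfl, rfl, _⟩ | ⟨rfl, rfl, _⟩ <;> rcases hσ with rfl | rfl
    · refine ⟨{3, 7}, by decide, by decide, by simp; norm_num, r1_iff _ (Or.inl rfl) _ _ _ fun p => ?_⟩
      simp only [Finset.mem_insert, Finset.mem_singleton]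
      omega
    · refine ⟨{1, 5}, by decide, by decide, by simp; norm_num, r1_iff _ (Or.inr rfl) _ _ _ fun p => ?_⟩
      simp only [Finset.mem_insert, Finset.mem_singleton]
      omega
    · refine ⟨{1}, by decide, by decide, by simp, r1_iff _ (Or.inl rfl) _ _ _ fun p => ?_⟩
      simp only [Finset.mem_singleton]
      omega
    · refine ⟨{7}, by decide, by decide, by simp, r1_iff _ (Or.inr rfl) _ _ _ fun p => ?_⟩
      simp only [Finset.mem_singleton]
      omega
    · refine ⟨{5}, by decide, by decide, by simp, r1_iff _ (Or.inl rfl) _ _ _ fun p => ?_⟩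
      simp only [Finset.mem_singleton]
      omega
    · refine ⟨{3}, by decide, by decide, by simp, r1_iff _ (Or.inr rfl) _ _ _ fun p => ?_⟩
      simp only [Finset.mem_singleton]
      omega

end Pool.Agent.MP0016c7.PC
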