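import Pool.Agent.Lib.MP_0016c7_nt.PC.H.Q1
import Pool.Agent.Lib.MP_0016c7_nt.PC.H.Q2
import Pool.Agent.Lib.MP_0016c7_nt.PC.H.Q3
import Pool.Agent.Lib.MP_0016c7_nt.PC.H.Q4
import Pool.Agent.Lib.MP_0016c7_nt.PC.H.Q5
import Pool.Agent.Lib.MP_0016c7_nt.PC.H.R1
import Pool.Agent.Lib.MP_0016c7_nt.PC.H.BHp
import Pool.Agent.Lib.MP_0016c7_nt.PC.H.FamFin
import Pool.Agent.Lib.MP_0016c7_nt.PC.TwD

set_option autoImplicit false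

/-!
Block [H]: the families, final theorems.
-/

namespace Pool.Agent.MP0016c7.PC

open Pool.Agent.MP0016c7.Rz

theorem jf_fam0 [QlsHyp] : JF_fam0 :=
  p_fam0 (p_Q4 p_Q1 p_Q3) (p_Q5 p_Q1 p_Q2 p_Q3) p_BH jf_tw p_R1

theorem jf_famW [QlsHyp] : JF_famW :=
  p_famW (p_Q4 p_Q1 p_Q3) (p_Q5 p_Q1 p_Q2 p_Q3) p_BH jf_tw p_R1

end Pool.Agent.MP0016c7.PC
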