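import Mathlib
import Pool.Agent.Lib.MP_0016c7_nt.PC.H.StmQ

set_option autoImplicit false

/-!
Block [H], part Q, piece Q1: change of the centre, abstract.
-/

open Finset MeasureTheory Filter Topology
open scoped Real ContDiff

namespace Pool.Agent.MP0016c7.PC

open Pool.Agent.MP0016c7.Rz

private lemma Q1_cs {f : ℝ → ℝ} (hf : Continuous f) {s β : ℝ} (hs : 0 ≤ s) (hsβ : s ≤ β) :
    (∫ u in (0 : ℝ)..s, f u) ^ 2 ≤ β * ∫ u in (0 : ℝ)..β, f u ^ 2 := by
  have hf2 : Continuous (fun u => f u ^ 2) := hf.pow 2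
  have hI : ∀ a b : ℝ, IntervalIntegrable (fun u => f u ^ 2) volume a b :=
    fun a b => hf2.intervalIntegrable a b
  have hnn : 0 ≤ ∫ u in (0 : ℝ)..s, f u ^ 2 :=
    intervalIntegral.integral_nonneg hs (fun u _ => sq_nonneg _)
  have hmono : ∫ u in (0 : ℝ)..s, f u ^ 2 ≤ ∫ u in (0 : ℝ)..β, f u ^ 2 := by
    rw [← intervalIntegral.integral_add_adjacent_intervals (hI 0 s) (hI s β)]
    have := intervalIntegral.integral_nonneg (μ := volume) hsβ (fun u _ => sq_nonneg (f u))
    linarith
  have key : (∫ u in (0 : ℝ)..s, f u) ^ 2 ≤ s * ∫ u in (0 : ℝ)..s, f u ^ 2 := by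
    set J := ∫ u in (0 : ℝ)..s, f u with hJ
    have h0 : 0 ≤ ∫ u in (0 : ℝ)..s, (s * f u - J) ^ 2 :=
      intervalIntegral.integral_nonneg hs (fun u _ => sq_nonneg _)
    have h1 : ∫ u in (0 : ℝ)..s, (s * f u - J) ^ 2 =
        s ^ 2 * (∫ u in (0 : ℝ)..s, f u ^ 2) - 2 * s * J * J + s * J ^ 2 := by
      have e : ∀ u, (s * f u - J) ^ 2 = s ^ 2 * f u ^ 2 - 2 * s * J * f u + J ^ 2 := fun u => by ring
      simp_rw [e]
      have i1 : IntervalIntegrable (fun u => s ^ 2 * f u ^ 2) volume 0 s :=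
        (continuous_const.mul hf2).intervalIntegrable _ _
      have i2 : IntervalIntegrable (fun u => 2 * s * J * f u) volume 0 s :=
        (continuous_const.mul hf).intervalIntegrable _ _
      rw [intervalIntegral.integral_add (i1.sub i2) intervalIntegrable_const,
        intervalIntegral.integral_sub i1 i2,
        intervalIntegral.integral_const_mul, intervalIntegral.integral_const_mul,
        intervalIntegral.integral_const, ← hJ]
      simp only [smul_eq_mul]
      ring
    rw [h1] at h0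
    rcases hs.eq_or_lt with h | h
    · have : J = 0 := by rw [hJ, ← h]; simp
      rw [this, ← h]; simp
    · have h2 : 0 ≤ s * (s * (∫ u in (0 : ℝ)..s, f u ^ 2) - J ^ 2) := by nlinarith only [h0]
      have := nonneg_of_mul_nonneg_right h2 h
      linarith
  calc (∫ u in (0 : ℝ)..s, f u) ^ 2 ≤ s * ∫ u in (0 : ℝ)..s, f u ^ 2 := key
    _ ≤ β * ∫ u in (0 : ℝ)..β, f u ^ 2 := by
      apply mul_le_mul hsβ hmono hnn (hs.trans hsβ)

theorem p_Q1 : S_Q1 := by
  intro V β B S T T' b hV hβ hder hcont hb hB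
  have hTc : ∀ d ∈ S, Continuous (T d) := fun d hd =>
    continuous_iff_continuousAt.2 fun Y => (hder d hd Y).continuousAt
  have hgc : ∀ d ∈ S, Continuous (fun v : ℝ => (T d (1 / 2 - v) - T d (b d - v)) ^ 2) := by
    intro d hd
    have h1 := hTc d hd
    exact ((h1.comp (continuous_const.sub continuous_id)).sub
      (h1.comp (continuous_const.sub continuous_id))).pow 2
  rw [← intervalIntegral.integral_finsetSum (fun d hd => (hgc d hd).intervalIntegrable 0 V)]
  have hpt : ∀ v ∈ Set.Icc (0 : ℝ) V,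
      ∑ d ∈ S, (T d (1 / 2 - v) - T d (b d - v)) ^ 2 ≤ β ^ 2 * B := by
    intro v hv
    have h1 : ∀ d ∈ S, (T d (1 / 2 - v) - T d (b d - v)) ^ 2 ≤
        β * ∫ u in (0 : ℝ)..β, T' d (1 / 2 - v + u) ^ 2 := by
      intro d hd
      have hc : Continuous (fun u => T' d (1 / 2 - v + u)) :=
        (hcont d hd).comp (continuous_const.add continuous_id)
      have hF : ∫ u in (0 : ℝ)..(b d - 1 / 2), T' d (1 / 2 - v + u) =
          T d (b d - v) - T d (1 / 2 - v) := by
        have h2 : ∀ u ∈ Set.uIcc (0 : ℝ) (b d - 1 / 2),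
            HasDerivAt (fun u => T d (1 / 2 - v + u)) (T' d (1 / 2 - v + u)) u := fun u _ =>
          (hder d hd (1 / 2 - v + u)).comp_const_add (1 / 2 - v) u
        rw [intervalIntegral.integral_eq_sub_of_hasDerivAt h2 (hc.intervalIntegrable _ _)]
        congr 2
        · ring
        · ring
      have h3 := Q1_cs hc (s := b d - 1 / 2) (β := β) (by linarith [(hb d hd).1])
        (by linarith [(hb d hd).2])
      rw [hF] at h3
      calc (T d (1 / 2 - v) - T d (b d - v)) ^ 2 = (T d (b d - v) - T d (1 / 2 - v)) ^ 2 := by ring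
        _ ≤ _ := h3
    have hkc : ∀ d ∈ S, Continuous (fun u => T' d (1 / 2 - v + u) ^ 2) := fun d hd =>
      ((hcont d hd).comp (continuous_const.add continuous_id)).pow 2
    refine (sum_le_sum h1).trans ?_
    rw [← mul_sum, ← intervalIntegral.integral_finsetSum (fun d hd =>
      (hkc d hd).intervalIntegrable 0 β)]
    have h4 : ∫ u in (0 : ℝ)..β, ∑ d ∈ S, T' d (1 / 2 - v + u) ^ 2 ≤
        ∫ _u in (0 : ℝ)..β, B := by
      apply intervalIntegral.integral_mono_on hβ
      · exact Continuous.intervalIntegrable (continuous_finsetSum _ hkc) _ _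
      · exact intervalIntegrable_const
      · intro u hu
        exact hB _ ⟨by linarith [hv.2, hu.1], by linarith [hv.1, hu.2]⟩
    rw [intervalIntegral.integral_const, sub_zero, smul_eq_mul] at h4
    calc β * ∫ u in (0 : ℝ)..β, ∑ d ∈ S, T' d (1 / 2 - v + u) ^ 2 ≤ β * (β * B) :=
          mul_le_mul_of_nonneg_left h4 hβ
      _ = β ^ 2 * B := by ring
  have h5 : ∫ v in (0 : ℝ)..V, ∑ d ∈ S, (T d (1 / 2 - v) - T d (b d - v)) ^ 2 ≤
      ∫ _v in (0 : ℝ)..V, β ^ 2 * B := by
    apply intervalIntegral.integral_mono_on hV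
    · exact Continuous.intervalIntegrable (continuous_finsetSum _ hgc) _ _
    · exact intervalIntegrable_const
    · exact hpt
  rwa [intervalIntegral.integral_const, sub_zero, smul_eq_mul] at h5

end Pool.Agent.MP0016c7.PC
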